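import Mathlib

/-!
Two connected graphs on 20 vertices with the same distance spectrum, one bipartite and the
other not.

Both graphs are obtained from a small graph `H` by replacing every vertex by an independent set
(a cell); for the distance matrix `D` of such a graph, `D + 2 I = U N U^T`, where `U` is the
vertex-by-cell incidence matrix and `N` is the distance matrix of `H` with diagonal entries `2`.
-/

set_option autoImplicit false

open Polynomial

namespace Pool.Agent.Results.MP_69260a_co.NotBipDetermined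

/-- The distance matrix of a graph: its `(u, v)` entry is the graph distance of `u` and `v`. -/
noncomputable def distMatrix {V : Type*} (G : SimpleGraph V) : Matrix V V ℝ :=
  Matrix.of fun u v => (G.dist u v : ℝ)

/-- The distance matrix is symmetric. -/
theorem distMatrix_isHermitian {V : Type*} (G : SimpleGraph V) : (distMatrix G).IsHermitian := by
  ext u v
  simp [distMatrix, SimpleGraph.dist_comm]

/-- The distance spectrum of a graph: the multiset of the eigenvalues of its distance matrix. -/
noncomputable def distSpectrum {V : Type*} [Fintype V] [DecidableEq V] (G : SimpleGraph V) :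
    Multiset ℝ :=
  Finset.univ.val.map (distMatrix_isHermitian G).eigenvalues

theorem distSpectrum_eq_roots {V : Type*} [Fintype V] [DecidableEq V] (G : SimpleGraph V) :
    distSpectrum G = (distMatrix G).charpoly.roots := by
  rw [(distMatrix_isHermitian G).roots_charpoly_eq_eigenvalues]
  rfl

/-- A criterion for a function to be the distance function of a graph. -/
theorem dist_eq_of {V : Type*} (G : SimpleGraph V) (f : V → V → ℕ)
    (h0 : ∀ u, f u u = 0) (h1 : ∀ u v w, G.Adj v w → f u w ≤ f u v + 1)
    (h2 : ∀ u v, u ≠ v → ∃ w, G.Adj w v ∧ f u w + 1 = f u v) (u v : V) :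
    G.Reachable u v ∧ G.dist u v = f u v := by
  have hlow : ∀ {a b : V} (p : G.Walk a b), f a b ≤ p.length := by
    intro a b p
    induction p using SimpleGraph.Walk.concatRec with
    | Hnil => simp [h0]
    | Hconcat p h ih =>
      rw [SimpleGraph.Walk.length_concat]
      exact (h1 _ _ _ h).trans (by omega)
  have hup : ∀ (n : ℕ) (b : V), f u b = n → ∃ p : G.Walk u b, p.length = n := by
    intro n
    induction n with
    | zero =>
      intro b hb
      by_cases hub : u = b
      · subst hub
        exact ⟨SimpleGraph.Walk.nil, rfl⟩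
      · obtain ⟨w, _, hw⟩ := h2 u b hub
        omega
    | succ n ih =>
      intro b hb
      have hub : u ≠ b := by
        rintro rfl
        rw [h0] at hb
        omega
      obtain ⟨w, hw, hw'⟩ := h2 u b hub
      obtain ⟨p, hp⟩ := ih w (by omega)
      exact ⟨p.concat hw, by simp [hp]⟩
  obtain ⟨p, hp⟩ := hup _ v rfl
  refine ⟨⟨p⟩, le_antisymm ?_ ?_⟩
  · rw [← hp]
    exact SimpleGraph.dist_le p
  · obtain ⟨q, hq⟩ := SimpleGraph.Reachable.exists_walk_length_eq_dist (⟨p⟩ : G.Reachable u v)
    rw [← hq]
    exact hlow q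

/-- The characteristic polynomial of a matrix `D` such that `D + 2 I` depends only on the cells of
the row and of the column. -/
theorem charpoly_of_cells {V K : Type*} [Fintype V] [DecidableEq V] [Fintype K] [DecidableEq K]
    (D : Matrix V V ℝ) (c : V → K) (N : Matrix K K ℝ) (m : K → ℝ)
    (hm : ∀ k, ((Finset.univ.filter fun v => c v = k).card : ℝ) = m k)
    (hD : ∀ u v, D u v = N (c u) (c v) - (if u = v then 2 else 0))
    (hcard : Fintype.card K ≤ Fintype.card V) :
    D.charpoly = (X ^ (Fintype.card V - Fintype.card K) *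
      (Matrix.of fun i j => N i j * m j).charpoly).comp (X + C 2) := by
  let U : Matrix V K ℝ := Matrix.of fun v k => if c v = k then 1 else 0
  have h1 : D = U * (N * U.transpose) - Matrix.scalar V 2 := by
    ext u v
    rw [hD]
    simp [U, Matrix.mul_apply, Matrix.scalar_apply, Matrix.diagonal_apply]
  have h2 : (N * U.transpose) * U = Matrix.of fun i j => N i j * m j := by
    rw [Matrix.mul_assoc]
    have : U.transpose * U = Matrix.diagonal m := by
      ext i j
      simp only [U, Matrix.mul_apply, Matrix.transpose_apply, Matrix.of_apply,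
        Matrix.diagonal_apply]
      by_cases hij : i = j
      · subst hij
        rw [if_pos rfl, ← hm]
        simp [Finset.sum_ite, Finset.filter_filter]
      · rw [if_neg hij]
        apply Finset.sum_eq_zero
        intro v _
        by_cases hv : c v = i
        · subst hv
          simp [hij]
        · simp [hv]
    rw [this]
    ext i j
    simp [Matrix.mul_diagonal]
  rw [h1, Matrix.charpoly_sub_scalar, Matrix.charpoly_mul_comm_of_le _ _ hcard, h2]

/-! ### The bipartite graph -/

/-- Cells of the first graph: `3, 2, 14, 1` vertices. -/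
def c1 : Fin 20 → Fin 4 := fun v =>
  if v.val < 3 then 0 else if v.val < 5 then 1 else if v.val < 19 then 2 else 3

/-- Distances between cells (path `0 - 1 - 2 - 3`), and `2` inside a cell. -/
def n1 : Fin 4 → Fin 4 → ℕ :=
  ![![2, 1, 2, 3], ![1, 2, 1, 2], ![2, 1, 2, 1], ![3, 2, 1, 2]]

/-- The bipartite graph: the path `0 - 1 - 2 - 3` with its vertices replaced by independent sets
of `3, 2, 14, 1` vertices. -/
def G1 : SimpleGraph (Fin 20) where
  Adj u v := n1 (c1 u) (c1 v) = 1
  symm := ⟨by
    have h : ∀ i j : Fin 4, n1 i j = 1 → n1 j i = 1 := by decide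
    intro u v huv
    exact h _ _ huv⟩
  loopless := ⟨by
    have h : ∀ i : Fin 4, n1 i i ≠ 1 := by decide
    intro u huv
    exact h _ huv⟩

instance : DecidableRel G1.Adj := fun u v => inferInstanceAs (Decidable (n1 (c1 u) (c1 v) = 1))

/-- The distance function of the first graph. -/
def f1 (u v : Fin 20) : ℕ := if u = v then 0 else n1 (c1 u) (c1 v)

/-! ### The graph that is not bipartite -/

/-- Cells of the second graph: `1, 1, 2, 8, 8` vertices. -/
def c2 : Fin 20 → Fin 5 := fun v =>
  if v.val < 1 then 0 else if v.val < 2 then 1 else if v.val < 4 then 2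
  else if v.val < 12 then 3 else 4

/-- Distances between cells (house graph with edges `01, 03, 04, 12, 14, 23`), and `2` inside a
cell. -/
def n2 : Fin 5 → Fin 5 → ℕ :=
  ![![2, 1, 2, 1, 1], ![1, 2, 1, 2, 1], ![2, 1, 2, 1, 2], ![1, 2, 1, 2, 2], ![1, 1, 2, 2, 2]]

/-- The graph that is not bipartite: the graph on `{0, 1, 2, 3, 4}` with edges
`01, 03, 04, 12, 14, 23`, with its vertices replaced by independent sets of `1, 1, 2, 8, 8`
vertices. -/
def G2 : SimpleGraph (Fin 20) where
  Adj u v := n2 (c2 u) (c2 v) = 1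
  symm := ⟨by
    have h : ∀ i j : Fin 5, n2 i j = 1 → n2 j i = 1 := by decide
    intro u v huv
    exact h _ _ huv⟩
  loopless := ⟨by
    have h : ∀ i : Fin 5, n2 i i ≠ 1 := by decide
    intro u huv
    exact h _ huv⟩

instance : DecidableRel G2.Adj := fun u v => inferInstanceAs (Decidable (n2 (c2 u) (c2 v) = 1))

/-- The distance function of the second graph. -/
def f2 (u v : Fin 20) : ℕ := if u = v then 0 else n2 (c2 u) (c2 v)

theorem dist1 (u v : Fin 20) : G1.Reachable u v ∧ G1.dist u v = f1 u v := by
  apply dist_eq_of G1 f1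
  · intro u
    simp [f1]
  · intro u v w hvw
    have h : ∀ i j k : Fin 4, n1 j k = 1 → n1 i k ≤ n1 i j + 1 := by decide
    unfold f1
    split_ifs with h1 h2 h2
    · omega
    · omega
    · subst h2
      have : n1 (c1 u) (c1 w) = 1 := hvw
      omega
    · exact h _ _ _ hvw
  · decide +kernel

theorem dist2 (u v : Fin 20) : G2.Reachable u v ∧ G2.dist u v = f2 u v := by
  apply dist_eq_of G2 f2
  · intro u
    simp [f2]
  · intro u v w hvw
    have h : ∀ i j k : Fin 5, n2 j k = 1 → n2 i k ≤ n2 i j + 1 := by decide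
    unfold f2
    split_ifs with h1 h2 h2
    · omega
    · omega
    · subst h2
      have : n2 (c2 u) (c2 w) = 1 := hvw
      omega
    · exact h _ _ _ hvw
  · decide +kernel

theorem connected1 : G1.Connected :=
  { preconnected := fun u v => (dist1 u v).1
    nonempty := ⟨0⟩ }

theorem connected2 : G2.Connected :=
  { preconnected := fun u v => (dist2 u v).1
    nonempty := ⟨0⟩ }

theorem bipartite1 : G1.IsBipartite := by
  refine ⟨SimpleGraph.Coloring.mk (fun v => if (c1 v).val % 2 = 0 then (0 : Fin 2) else 1) ?_⟩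
  have h : ∀ i j : Fin 4, n1 i j = 1 →
      (if i.val % 2 = 0 then (0 : Fin 2) else 1) ≠ (if j.val % 2 = 0 then (0 : Fin 2) else 1) := by
    decide
  intro u v huv
  exact h _ _ huv

theorem not_bipartite2 : ¬ G2.IsBipartite := by
  rintro ⟨col⟩
  have h01 : col 0 ≠ col 1 := col.valid (show n2 (c2 0) (c2 1) = 1 by decide)
  have h0t : col 0 ≠ col 19 := col.valid (show n2 (c2 0) (c2 19) = 1 by decide)
  have h1t : col 1 ≠ col 19 := col.valid (show n2 (c2 1) (c2 19) = 1 by decide)
  have h : ∀ a b c : Fin 2, a ≠ b → a ≠ c → b ≠ c → False := by decide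
  exact h _ _ _ h01 h0t h1t

theorem charpoly_quot1 : (Matrix.of fun i j => (Matrix.of fun i j => (n1 i j : ℝ)) i j *
    (![3, 2, 14, 1] : Fin 4 → ℝ) j).charpoly =
    X ^ 4 - 40 * X ^ 3 + 129 * X ^ 2 + 384 * X - 1008 := by
  have h : (Matrix.of fun i j => (Matrix.of fun i j => (n1 i j : ℝ)) i j *
      (![3, 2, 14, 1] : Fin 4 → ℝ) j) =
      !![6, 2, 28, 3; 3, 4, 14, 2; 6, 2, 28, 1; 9, 4, 14, 2] := by
    ext i j
    fin_cases i <;> fin_cases j <;> simp [n1] <;> norm_num
  have hc : Matrix.charmatrix (!![6, 2, 28, 3; 3, 4, 14, 2; 6, 2, 28, 1; 9, 4, 14, 2] :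
      Matrix (Fin 4) (Fin 4) ℝ) =
      !![X - 6, -2, -28, -3; -3, X - 4, -14, -2; -6, -2, X - 28, -1; -9, -4, -14, X - 2] := by
    ext1 i j
    fin_cases i <;> fin_cases j <;> simp <;> rfl
  rw [h, Matrix.charpoly, hc]
  simp [Matrix.det_succ_row_zero, Fin.sum_univ_succ, Fin.succAbove]
  ring

theorem charpoly1 : (distMatrix G1).charpoly =
    (X ^ 16 * (X ^ 4 - 40 * X ^ 3 + 129 * X ^ 2 + 384 * X - 1008) : ℝ[X]).comp (X + C 2) := by
  rw [charpoly_of_cells (distMatrix G1) c1 (Matrix.of fun i j => (n1 i j : ℝ)) ![3, 2, 14, 1],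
    charpoly_quot1, Fintype.card_fin, Fintype.card_fin]
  · have h : ∀ k : Fin 4, (Finset.univ.filter fun v => c1 v = k).card = ![3, 2, 14, 1] k := by
      decide +kernel
    intro k
    rw [h]
    fin_cases k <;> simp
  · intro u v
    simp only [distMatrix, Matrix.of_apply, (dist1 u v).2, f1]
    have h : ∀ i : Fin 4, n1 i i = 2 := by decide
    split_ifs with huv
    · subst huv
      simp [h]
    · simp
  · simp

theorem charpoly_quot2 : (Matrix.of fun i j => (Matrix.of fun i j => (n2 i j : ℝ)) i j *
    (![1, 1, 2, 8, 8] : Fin 5 → ℝ) j).charpoly =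
    X * (X ^ 4 - 40 * X ^ 3 + 129 * X ^ 2 + 384 * X - 1008) := by
  have h : (Matrix.of fun i j => (Matrix.of fun i j => (n2 i j : ℝ)) i j *
      (![1, 1, 2, 8, 8] : Fin 5 → ℝ) j) =
      !![2, 1, 4, 8, 8; 1, 2, 2, 16, 8; 2, 1, 4, 8, 16; 1, 2, 2, 16, 16; 1, 1, 4, 16, 16] := by
    ext i j
    fin_cases i <;> fin_cases j <;> simp [n2] <;> norm_num
  have hc : Matrix.charmatrix (!![2, 1, 4, 8, 8; 1, 2, 2, 16, 8; 2, 1, 4, 8, 16;
      1, 2, 2, 16, 16; 1, 1, 4, 16, 16] : Matrix (Fin 5) (Fin 5) ℝ) =
      !![X - 2, -1, -4, -8, -8; -1, X - 2, -2, -16, -8; -2, -1, X - 4, -8, -16;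
        -1, -2, -2, X - 16, -16; -1, -1, -4, -16, X - 16] := by
    ext1 i j
    fin_cases i <;> fin_cases j <;> simp <;> rfl
  rw [h, Matrix.charpoly, hc]
  simp [Matrix.det_succ_row_zero, Fin.sum_univ_succ, Fin.succAbove]
  ring

theorem charpoly2 : (distMatrix G2).charpoly =
    (X ^ 16 * (X ^ 4 - 40 * X ^ 3 + 129 * X ^ 2 + 384 * X - 1008) : ℝ[X]).comp (X + C 2) := by
  rw [charpoly_of_cells (distMatrix G2) c2 (Matrix.of fun i j => (n2 i j : ℝ)) ![1, 1, 2, 8, 8],
    charpoly_quot2, Fintype.card_fin, Fintype.card_fin, pow_succ (X : ℝ[X]) 15, mul_assoc]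
  · have h : ∀ k : Fin 5, (Finset.univ.filter fun v => c2 v = k).card = ![1, 1, 2, 8, 8] k := by
      decide +kernel
    intro k
    rw [h]
    fin_cases k <;> simp
  · intro u v
    simp only [distMatrix, Matrix.of_apply, (dist2 u v).2, f2]
    have h : ∀ i : Fin 5, n2 i i = 2 := by decide
    split_ifs with huv
    · subst huv
      simp [h]
    · simp
  · simp

/-- The distance spectrum of a connected graph does not determine whether the graph is
bipartite: there are two connected graphs with 20 vertices and the same distance spectrum, one of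
which is bipartite while the other is not. -/
theorem result : ∃ Γ Ω : SimpleGraph (Fin 20), Γ.Connected ∧ Ω.Connected ∧
    distSpectrum Γ = distSpectrum Ω ∧ Γ.IsBipartite ∧ ¬ Ω.IsBipartite := by
  refine ⟨G1, G2, connected1, connected2, ?_, bipartite1, not_bipartite2⟩
  rw [distSpectrum_eq_roots, distSpectrum_eq_roots, charpoly1, charpoly2]

end Pool.Agent.Results.MP_69260a_co.NotBipDetermined
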